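import Pool.Agent.V1197.AP.Dims

set_option autoImplicit false

/-!
# Self-similar sets in `ℝ³` whose projections have an intermediate Assouad dimension
-/

namespace Pool.Agent.Results.MP_c72560_an.IntermediateAssouad

open Set Metric MeasureTheory
open Pool.Agent.V1197.AP

/-- The orthogonal projections to planes for which the dichotomy `dim_A π F ∈ {2, dim_H π F}`
fails, indexed by the unit normal vectors of the planes. -/
def Exceptional (F : Set (Sp 3)) : Set (sphere (0 : Sp 3) 1) :=
  {θ | assouadDim (shadow θ F) ≠ 2 ∧ ENNReal.ofReal (assouadDim (shadow θ F)) ≠ dimH (shadow θ F)}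

/-- There is a self-similar set `F` in the unit cube of `ℝ³`, not contained in any plane, such that
for a set of positive measure of projections `π` to planes (the measure being surface measure on
the sphere of unit normals) `dim_H π F ≤ 1/2`, `1 ≤ dim_A π F ≤ 5/4`; in particular
`dim_A π F ∉ {2, dim_H π F}` for a set of positive measure of `π`. -/
theorem result : ∃ F : Set (Sp 3), IsSelfSimilar F ∧
    (∀ (f : Sp 3 →ₗ[ℝ] ℝ) (a : ℝ), (∀ x ∈ F, f x = a) → f = 0) ∧
    0 < (volume : Measure (Sp 3)).toSphere (Exceptional F) ∧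
    0 < (volume : Measure (Sp 3)).toSphere {θ | dimH (shadow θ F) ≤ ENNReal.ofReal (1 / 2) ∧
      1 ≤ assouadDim (shadow θ F) ∧ assouadDim (shadow θ F) ≤ 5 / 4} := by
  have hpos : 0 < (volume : Measure (Sp 3)).toSphere U₀ := isOpen_U₀.measure_pos _ nonempty_U₀
  have hdim : ∀ θ, dimH (shadow θ F₀) ≤ ENNReal.ofReal (1 / 2) := by
    intro θ
    refine (dimH_shadow θ).trans (le_of_eq ?_)
    rw [← ENNReal.ofReal_coe_nnreal]
    congr 1
  refine ⟨F₀, isSelfSimilar, not_in_hyperplane, hpos.trans_le (measure_mono ?_),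
    hpos.trans_le (measure_mono ?_)⟩
  · intro θ hθ
    obtain ⟨h1, h2⟩ := assouadDim_bounds hθ
    refine ⟨by linarith, fun h3 => ?_⟩
    have h4 := hdim θ
    rw [← h3, ENNReal.ofReal_le_ofReal_iff (by norm_num)] at h4
    linarith
  · intro θ hθ
    obtain ⟨h1, h2⟩ := assouadDim_bounds hθ
    exact ⟨hdim θ, h1, h2⟩

end Pool.Agent.Results.MP_c72560_an.IntermediateAssouad
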